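import Mathlib

set_option autoImplicit false
open Filter Topology

namespace Pool.Agent.Results.MP_25f285_al.Counter

/-- least cost of covering distance `m` with steps of length `4^j` costing `4^j + 2^j` -/
noncomputable def phi (m : ℕ) : ℕ :=
  sInf {c | ∃ l : List ℕ, m ≤ (l.map fun j => 4 ^ j).sum ∧ (l.map fun j => 4 ^ j + 2 ^ j).sum = c}

lemma rep (m : ℕ) : ((List.replicate m 0).map fun j => 4 ^ j).sum = m ∧
    ((List.replicate m 0).map fun j => 4 ^ j + 2 ^ j).sum = 2 * m := by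
  simp [mul_comm]

lemma spec (m : ℕ) : ∃ l : List ℕ, m ≤ (l.map fun j => 4 ^ j).sum ∧
    (l.map fun j => 4 ^ j + 2 ^ j).sum = phi m :=
  Nat.sInf_mem (s := {c | ∃ l : List ℕ, m ≤ (l.map fun j => 4 ^ j).sum ∧
    (l.map fun j => 4 ^ j + 2 ^ j).sum = c}) ⟨2 * m, List.replicate m 0, (rep m).1.ge, (rep m).2⟩

lemma phi_le {m : ℕ} (l : List ℕ) (h : m ≤ (l.map fun j => 4 ^ j).sum) :
    phi m ≤ (l.map fun j => 4 ^ j + 2 ^ j).sum := Nat.sInf_le ⟨l, h, rfl⟩

lemma phi_upper (m : ℕ) : phi m ≤ 2 * m := (phi_le _ (rep m).1.ge).trans (rep m).2.le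

lemma phi_lower (m : ℕ) : m ≤ phi m := by
  obtain ⟨l, h1, h2⟩ := spec m
  rw [← h2]
  exact h1.trans (List.sum_le_sum fun j _ => Nat.le_add_right _ _)

lemma phi_sub {a b c : ℕ} (h : c ≤ a + b) : phi c ≤ phi a + phi b := by
  obtain ⟨l, h1, h2⟩ := spec a
  obtain ⟨l', h3, h4⟩ := spec b
  have := phi_le (m := c) (l ++ l') (by rw [List.map_append, List.sum_append]; omega)
  rwa [List.map_append, List.sum_append, h2, h4] at this

lemma small (k : ℕ) (l : List ℕ) (h : ∀ j ∈ l, j ≤ k) :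
    (l.map fun j => 4 ^ j).sum * (2 ^ k + 1) ≤ (l.map fun j => 4 ^ j + 2 ^ j).sum * 2 ^ k := by
  induction l with
  | nil => simp
  | cons j l ih =>
    have h1 := ih fun i hi => h i (List.mem_cons_of_mem _ hi)
    have h2 : 2 ^ j ≤ 2 ^ k := Nat.pow_le_pow_right (by norm_num) (h j List.mem_cons_self)
    have h3 : 4 ^ j = 2 ^ j * 2 ^ j := by rw [← mul_pow]; rfl
    simp only [List.map_cons, List.sum_cons]
    nlinarith [Nat.mul_le_mul_left (2 ^ j) h2]

lemma flat (k m : ℕ) (h1 : m ≤ 4 ^ (k + 1)) (h2 : 4 ^ (k + 1) ≤ m + 2 ^ k) :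
    phi m = 4 ^ (k + 1) + 2 ^ (k + 1) := by
  refine le_antisymm (by simpa using phi_le [k + 1] (by simpa using h1)) ?_
  obtain ⟨l, h3, h4⟩ := spec m
  rw [← h4]
  by_cases h : ∀ j ∈ l, j ≤ k
  · have h5 := small k l h
    have e : 4 ^ (k + 1) = 4 * (2 ^ k * 2 ^ k) := by rw [← mul_pow, pow_succ]; ring
    have hp : 0 < 2 ^ k := by positivity
    refine Nat.le_of_mul_le_mul_right ?_ hp
    refine le_trans ?_ (le_trans (Nat.mul_le_mul_right _ h3) h5)
    rw [e] at h2 ⊢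
    rw [pow_succ]
    generalize 2 ^ k = t at *
    nlinarith [Nat.mul_le_mul_right (t + 1) h2, Nat.mul_le_mul_left t hp]
  · push Not at h
    obtain ⟨j, hj, hk⟩ := h
    refine le_trans ?_ (List.single_le_sum (fun _ _ => Nat.zero_le _) _
      (List.mem_map_of_mem (f := fun j => 4 ^ j + 2 ^ j) hj))
    exact add_le_add (Nat.pow_le_pow_right (by norm_num) hk) (Nat.pow_le_pow_right (by norm_num) hk)

theorem result : ∃ d : ℤ → ℤ → ℤ,
    (∀ x y, d x y = 0 ↔ x = y) ∧ (∀ x y, d x y = d y x) ∧ (∀ x y z, d x z ≤ d x y + d y z) ∧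
    (∀ g x y, d (g + x) (g + y) = d x y) ∧
    (∀ x r, {y | d x y ≤ r}.Finite) ∧
    (∀ x y, |x - y| ≤ d x y ∧ d x y ≤ 2 * |x - y|) ∧
    ∃ x : ℕ → ℤ, (∀ F : Set ℤ, F.Finite → ∀ᶠ k in atTop, x k ∉ F) ∧
      ∀ y, Tendsto (fun k => ((d (x k) y - d (x k) 0 : ℤ) : ℝ)) atTop (𝓝 0) := by
  have hb : ∀ x y : ℤ, |x - y| ≤ (phi (x - y).natAbs : ℤ) ∧
      (phi (x - y).natAbs : ℤ) ≤ 2 * |x - y| := by
    intro x y
    have h1 := phi_lower (x - y).natAbs
    have h2 := phi_upper (x - y).natAbs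
    rw [Int.abs_eq_natAbs]
    omega
  have hg : ∀ k : ℕ, k < 2 ^ k ∧ 2 ^ k ≤ 4 ^ k := fun k =>
    ⟨Nat.lt_two_pow_self, Nat.pow_le_pow_left (by norm_num) k⟩
  refine ⟨fun x y => phi (x - y).natAbs, fun x y => ?_, fun x y => ?_, fun x y z => ?_,
    fun g x y => ?_, fun x r => ?_, hb, fun k => ((4 ^ (k + 2) - 2 ^ k : ℕ) : ℤ), ?_, ?_⟩
  · have := hb x y
    constructor
    · intro h
      simp only at h
      rw [h] at this
      have := abs_nonpos_iff.1 this.1
      omega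
    · rintro rfl
      simp only [sub_self, abs_zero] at this ⊢
      omega
  · simp only
    rw [← Int.natAbs_neg, neg_sub]
  · have := phi_sub (a := (x - y).natAbs) (b := (y - z).natAbs) (c := (x - z).natAbs) (by omega)
    simp only
    omega
  · simp
  · refine (Set.finite_Icc (x - r) (x + r)).subset fun y hy => ?_
    have := abs_le.1 ((hb x y).1.trans hy)
    constructor <;> omega
  · intro F hF
    obtain ⟨M, hM⟩ := hF.bddAbove
    filter_upwards [eventually_ge_atTop M.natAbs] with k hk hm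
    have h1 := hM hm
    have h2 := hg k
    have h3 : 4 ^ (k + 2) = 16 * 4 ^ k := by ring
    omega
  · intro y
    refine tendsto_const_nhds.congr' ?_
    filter_upwards [eventually_ge_atTop y.natAbs] with k hk
    have h2 := hg k
    have h3 : 4 ^ (k + 1 + 1) = 16 * 4 ^ k := by ring
    have h5 : 4 ^ (k + 2) = 16 * 4 ^ k := by ring
    have h4 : 2 ^ (k + 1) = 2 * 2 ^ k := by ring
    rw [flat (k + 1) _ (by omega) (by omega), flat (k + 1) _ (by omega) (by omega)]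
    simp

end Pool.Agent.Results.MP_25f285_al.Counter
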